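import Pool.Agent.W523.LV.Stmts
import Pool.Agent.H394R3.ET.Mach
import Pool.Agent.H336R4.BC.FixB2
import Pool.Agent.H553R3.BCKer2

/-!
# Project LV, stability of the machine: preparations
-/

set_option autoImplicit false

open Finset MeasureTheory

namespace Pool.Agent.W138.LV

open Pool.Agent.W523.LV
open Pool.Agent.H96R3.BC (vv UU CC cf Wts Bf EE NN KK mem_CC NB XL BL TaskKer1 TaskKer2 KK_cont_left cf_prime
  exists_cell CC_unique)
open Pool.Agent.H394R3.ET (KC AS Mass HH cN cN_mass)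
open Pool.Agent.H336R4.BC (cell_le NB_sub)

lemma N4_nonneg (Q : ℕ) {v : ℝ} (hv : 0 ≤ v) : 0 ≤ N4 Q v := by
  unfold N4; split_ifs <;> positivity

lemma N4_of_ge {Q : ℕ} {v : ℝ} (hv : 1 ≤ v) : N4 Q v = v ^ (4 * Q) := by
  unfold N4
  split_ifs with h
  · have : v = 1 := le_antisymm h hv
    rw [this, one_pow, one_pow]
  · rfl

lemma NN_le_N4 {Q : ℕ} (hQ : 2 ≤ Q) {v : ℝ} : NN Q v ≤ N4 Q v := by
  unfold NN N4
  split_ifs with h
  · exact le_rfl
  · push Not at h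
    exact pow_le_pow_right₀ h.le (by omega)

/-- the contribution of `[0,1]` -/
lemma low_int (h2 : TaskKer2) {Q : ℕ} (hQ : 6 ≤ Q) {F : ℝ → ℝ} {a : ℝ} (ha : 0 ≤ a)
    (hF : ∀ v : ℝ, 0 ≤ v → |F v| ≤ a * N4 Q v) {v : ℝ} (hv : 0 ≤ v) :
    |∫ u in (0:ℝ)..1, F u * KK (4 * Q + 4) u v| ≤ a / 4 * N4 Q v := by
  have hN0 : 0 ≤ N4 Q v := N4_nonneg Q hv
  have hpt : ∀ u : ℝ, u ∈ Set.Icc (0:ℝ) 1 →
      |F u * KK (4 * Q + 4) u v| ≤ 3 * a * N4 Q v * u ^ (2 * Q + 1) := by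
    intro u hu
    have hu0 : 0 ≤ u := hu.1
    have h3 : |F u| ≤ a * u ^ (4 * Q + 3) := by
      have := hF u hu0
      unfold N4 at this
      rwa [if_pos hu.2] at this
    have hk := h2 (4 * Q + 4) (by omega) u v hu0 hv
    have e43 : 4 * Q + 4 - 1 = 4 * Q + 3 := by omega
    rw [e43] at hk
    have h4 : u ^ (4 * Q + 3) * |KK (4 * Q + 4) u v| ≤ 3 * N4 Q v * u ^ (2 * Q + 1) := by
      unfold N4
      split_ifs with h
      · calc u ^ (4 * Q + 3) * |KK (4 * Q + 4) u v| ≤ u ^ (2 * Q + 1) * (3 * v ^ (4 * Q + 3)) := by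
              apply mul_le_mul _ hk.1 (abs_nonneg _) (by positivity)
              exact pow_le_pow_of_le_one hu0 hu.2 (by omega)
          _ = _ := by ring
      · push Not at h
        have h5 : (u ^ (4 * Q + 3) * |KK (4 * Q + 4) u v|) ^ 2 ≤ (u ^ (2 * Q + 1) * v ^ (4 * Q)) ^ 2 := by
          rw [mul_pow, mul_pow, sq_abs]
          calc (u ^ (4 * Q + 3)) ^ 2 * KK (4 * Q + 4) u v ^ 2 =
                u ^ (4 * Q + 3) * (KK (4 * Q + 4) u v ^ 2 * u ^ (4 * Q + 3)) := by ring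
            _ ≤ u ^ (4 * Q + 3) * v ^ (4 * Q + 3) := mul_le_mul_of_nonneg_left hk.2 (by positivity)
            _ ≤ (u ^ (2 * Q + 1)) ^ 2 * (v ^ (4 * Q)) ^ 2 := by
              rw [← pow_mul, ← pow_mul]
              apply mul_le_mul _ _ (by positivity) (by positivity)
              · exact pow_le_pow_of_le_one hu0 hu.2 (by omega)
              · exact pow_le_pow_right₀ h.le (by omega)
        have h6 := le_of_pow_le_pow_left₀ (by norm_num : (2:ℕ) ≠ 0) (by positivity) h5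
        refine h6.trans ?_
        have h7 : 0 ≤ u ^ (2 * Q + 1) * v ^ (4 * Q) := by positivity
        linarith
    rw [abs_mul]
    calc |F u| * |KK (4 * Q + 4) u v| ≤ (a * u ^ (4 * Q + 3)) * |KK (4 * Q + 4) u v| :=
          mul_le_mul_of_nonneg_right h3 (abs_nonneg _)
      _ = a * (u ^ (4 * Q + 3) * |KK (4 * Q + 4) u v|) := by ring
      _ ≤ a * (3 * N4 Q v * u ^ (2 * Q + 1)) := mul_le_mul_of_nonneg_left h4 ha
      _ = _ := by ring
  have hint : |∫ u in (0:ℝ)..1, F u * KK (4 * Q + 4) u v| ≤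
      ∫ u in (0:ℝ)..1, 3 * a * N4 Q v * u ^ (2 * Q + 1) := by
    rw [← Real.norm_eq_abs]
    apply intervalIntegral.norm_integral_le_of_norm_le zero_le_one
    · refine Filter.Eventually.of_forall fun u hu => ?_
      exact hpt u ⟨hu.1.le, hu.2⟩
    · exact (continuous_const.mul (continuous_pow _)).intervalIntegrable _ _
  rw [intervalIntegral.integral_const_mul, integral_pow] at hint
  refine hint.trans ?_
  rw [one_pow, zero_pow (by omega), sub_zero]
  have hQR : (6:ℝ) ≤ Q := by exact_mod_cast hQ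
  have h7 : (1:ℝ) / (((2 * Q + 1 : ℕ) : ℝ) + 1) ≤ 1 / 12 := by
    push_cast
    apply one_div_le_one_div_of_le (by norm_num)
    linarith
  calc 3 * a * N4 Q v * (1 / (((2 * Q + 1 : ℕ) : ℝ) + 1)) ≤ 3 * a * N4 Q v * (1 / 12) :=
        mul_le_mul_of_nonneg_left h7 (by positivity)
    _ = a / 4 * N4 Q v := by ring

/-- sums of `1 / j ^ 2` -/
lemma tail {j₀ R : ℕ} (hj : 1 ≤ j₀) (hR : j₀ ≤ R) :
    Summable (fun i : ℕ => if R ≤ j₀ + i then (1:ℝ) / (((j₀ + i : ℕ) : ℝ)) ^ 2 else 0) ∧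
    ∑' i : ℕ, (if R ≤ j₀ + i then (1:ℝ) / (((j₀ + i : ℕ) : ℝ)) ^ 2 else 0) ≤ 2 / (R:ℝ) := by
  have hRp : (0:ℝ) < R := by exact_mod_cast (by omega : 0 < R)
  have key : ∀ n : ℕ, ∑ i ∈ Finset.range n, (if R ≤ j₀ + i then 1 / (((j₀ + i : ℕ) : ℝ)) ^ 2 else 0) ≤
      2 / (R:ℝ) - 2 / ((max R (j₀ + n) : ℕ) : ℝ) := by
    intro n
    induction n with
    | zero => simp [max_eq_left hR]
    | succ n ih =>
      rw [Finset.sum_range_succ]
      by_cases h : R ≤ j₀ + n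
      · rw [if_pos h]
        have e1 : max R (j₀ + n) = j₀ + n := max_eq_right h
        have e2 : max R (j₀ + (n + 1)) = j₀ + n + 1 := by omega
        rw [e1] at ih
        rw [e2]
        have hx : (1:ℝ) ≤ ((j₀ + n : ℕ) : ℝ) := by exact_mod_cast (by omega : 1 ≤ j₀ + n)
        have h3 : 1 / (((j₀ + n : ℕ) : ℝ)) ^ 2 ≤ 2 / ((j₀ + n : ℕ) : ℝ) - 2 / ((j₀ + n + 1 : ℕ) : ℝ) := by
          rw [Nat.cast_add (j₀ + n) 1, Nat.cast_one]
          set y : ℝ := ((j₀ + n : ℕ) : ℝ) with hy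
          have hy0 : 0 < y := by linarith
          have e3 : 2 / y - 2 / (y + 1) = 2 / (y * (y + 1)) := by field_simp; ring
          rw [e3, div_le_div_iff₀ (by positivity) (by positivity)]
          nlinarith
        linarith
      · rw [if_neg h]
        have e1 : max R (j₀ + n) = R := max_eq_left (by omega)
        have e2 : max R (j₀ + (n + 1)) = R := max_eq_left (by omega)
        rw [e1] at ih
        rw [e2]
        linarith
  have key2 : ∀ n : ℕ, ∑ i ∈ Finset.range n, (if R ≤ j₀ + i then 1 / (((j₀ + i : ℕ) : ℝ)) ^ 2 else 0) ≤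
      2 / (R:ℝ) := fun n => (key n).trans (sub_le_self _ (by positivity))
  have hnn : ∀ i : ℕ, (0:ℝ) ≤ (if R ≤ j₀ + i then 1 / (((j₀ + i : ℕ) : ℝ)) ^ 2 else 0) := by
    intro i; split_ifs <;> positivity
  exact ⟨summable_of_sum_range_le hnn key2, Real.tsum_le_of_sum_range_le hnn key2⟩

lemma cN_trunc (y : ℕ → ℝ) {B n : ℕ} (hn : n ≤ 2 * B) :
    cN (fun q => if q ≤ B then y q else 0) n = cN y n := by
  unfold cN
  split_ifs with hp
  · rfl
  · unfold cf
    split_ifs with hs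
    · apply Finset.prod_congr rfl
      intro q hq
      have hqp := Nat.prime_of_mem_primeFactors hq
      obtain ⟨m, hm⟩ := Nat.dvd_of_mem_primeFactors hq
      have hn0 : n ≠ 0 := (Nat.mem_primeFactors.1 hq).2.2
      have hm2 : 2 ≤ m := by
        rcases m with _ | _ | m
        · simp at hm; omega
        · simp at hm; rw [hm] at hp; exact absurd hqp hp
        · omega
      have h3 : q ≤ B := by nlinarith
      exact if_pos h3
    · rfl

/-- the identity for the cell contributions -/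
lemma Bf_eq2 {Q j₀ : ℕ} (hK : TaskKer1) {C : ℝ} {a0 : ℕ → ℝ} {w : ℕ → ℝ → ℝ} (hw : Wts Q j₀ C a0 w)
    {s x : ℕ → ℝ} (hs : ∀ n, s n ≠ 0 → n.Prime) {f : ℝ → ℝ} (hf : Continuous f) {j : ℕ} (hQ : 1 ≤ Q) (hj1 : 1 ≤ j₀)
    (hj : j₀ ≤ j)
    (hx : ∀ p ∈ CC Q j, p.Prime → x p = XL Q j₀ a0 w (cN (fun p => s p + x p)) f j p) (v : ℝ) :
    Bf Q j₀ (fun p => s p + x p) f j v = ∑ p ∈ CC Q j, s p * (vv Q j₀ p) ^ 2 * KK (4 * Q + 4) (vv Q j₀ p) v +
      BL Q j₀ a0 w (cN (fun p => s p + x p)) f j v := by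
  classical
  set y : ℕ → ℝ := fun p => s p + x p with hy
  set a := UU j₀ j with ha
  set b := UU j₀ (j + 1) with hb
  set K : ℝ → ℝ := fun u => KK (4 * Q + 4) u v with hKdef
  have hKc : Continuous K := KK_cont_left hK (by omega) v
  set R : ℕ → ℝ := fun p => (∫ u in a..b, f u * w p u) - ∑ n ∈ NB Q a0 j, cN y n * (vv Q j₀ n) ^ 2 * w p (vv Q j₀ n) with hR
  have hI : ∫ u in a..b, f u * EE Q j₀ w j u v = (∫ u in a..b, f u * K u) -
      ∑ p ∈ CC Q j, (∫ u in a..b, f u * w p u) * K (vv Q j₀ p) := by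
    have e1 : ∀ u, f u * EE Q j₀ w j u v = f u * K u - ∑ p ∈ CC Q j, (f u * w p u) * K (vv Q j₀ p) := by
      intro u
      unfold EE
      rw [mul_sub, mul_sum]
      congr 1
      apply sum_congr rfl
      intro p _
      ring
    simp_rw [e1]
    rw [intervalIntegral.integral_sub, intervalIntegral.integral_finsetSum]
    · congr 1
      apply sum_congr rfl
      intro p _
      rw [intervalIntegral.integral_mul_const]
    · intro p _
      exact Continuous.intervalIntegrable ((hf.mul (hw.cont p)).mul continuous_const) _ _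
    · exact Continuous.intervalIntegrable (hf.mul hKc) _ _
    · exact Continuous.intervalIntegrable (continuous_finsetSum _ fun p _ => (hf.mul (hw.cont p)).mul continuous_const) _ _
  have hS : ∑ n ∈ NB Q a0 j, cN y n * (vv Q j₀ n) ^ 2 * EE Q j₀ w j (vv Q j₀ n) v =
      ∑ n ∈ NB Q a0 j, cN y n * (vv Q j₀ n) ^ 2 * K (vv Q j₀ n) -
      ∑ p ∈ CC Q j, (∑ n ∈ NB Q a0 j, cN y n * (vv Q j₀ n) ^ 2 * w p (vv Q j₀ n)) * K (vv Q j₀ p) := by
    simp_rw [sum_mul]
    rw [sum_comm, ← sum_sub_distrib]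
    apply sum_congr rfl
    intro n _
    unfold EE
    rw [mul_sub, mul_sum]
    congr 1
    apply sum_congr rfl
    intro p _
    ring
  have hterm : ∀ n ∈ CC Q j, cf y n * (vv Q j₀ n) ^ 2 * K (vv Q j₀ n) =
      cN y n * (vv Q j₀ n) ^ 2 * K (vv Q j₀ n) + (s n * (vv Q j₀ n) ^ 2 * K (vv Q j₀ n) + R n * K (vv Q j₀ n)) := by
    intro n hn
    have hn0 : vv Q j₀ n ≠ 0 := by
      have h1 := (Pool.Agent.H96R3.BC.vv_mem (j₀ := j₀) hQ hn).1
      have h2 := Pool.Agent.H96R3.BC.UU_pos hj1 hj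
      linarith
    by_cases hp : n.Prime
    · have e1 : cN y n = 0 := if_pos hp
      have e2 : x n * (vv Q j₀ n) ^ 2 = R n := by
        rw [hx n hn hp]
        unfold XL
        rw [div_mul_cancel₀ _ (pow_ne_zero 2 hn0)]
      rw [e1, cf_prime y hp, ← e2]
      show (s n + x n) * _ * _ = _
      ring
    · have e1 : cN y n = cf y n := if_neg hp
      have e2 : s n = 0 := by
        by_contra h
        exact hp (hs n h)
      have hw0 : ∀ u, w n u = 0 := by
        intro u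
        by_contra h
        exact hp (hw.supp n u h).1
      have e3 : R n = 0 := by
        rw [hR]
        simp [hw0]
      rw [e1, e2, e3]
      ring
  have hNB : ∑ n ∈ CC Q j, cN y n * (vv Q j₀ n) ^ 2 * K (vv Q j₀ n) =
      ∑ n ∈ NB Q a0 j, cN y n * (vv Q j₀ n) ^ 2 * K (vv Q j₀ n) := by
    symm
    apply Finset.sum_subset (NB_sub _ _ _)
    intro n hn hn2
    have hp : n.Prime := by
      by_contra h
      apply hn2
      unfold NB
      exact Finset.mem_filter.2 ⟨hn, fun h2 => h h2.1⟩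
    have e1 : cN y n = 0 := if_pos hp
    rw [e1]
    ring
  have hmain : ∑ n ∈ CC Q j, cf y n * (vv Q j₀ n) ^ 2 * KK (4 * Q + 4) (vv Q j₀ n) v =
      ∑ n ∈ NB Q a0 j, cN y n * (vv Q j₀ n) ^ 2 * K (vv Q j₀ n) +
        (∑ p ∈ CC Q j, s p * (vv Q j₀ p) ^ 2 * KK (4 * Q + 4) (vv Q j₀ p) v + ∑ p ∈ CC Q j, R p * K (vv Q j₀ p)) := by
    have e0 : ∑ n ∈ CC Q j, cf y n * (vv Q j₀ n) ^ 2 * KK (4 * Q + 4) (vv Q j₀ n) v =
        ∑ n ∈ CC Q j, cf y n * (vv Q j₀ n) ^ 2 * K (vv Q j₀ n) := rfl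
    rw [e0, Finset.sum_congr rfl hterm, Finset.sum_add_distrib, Finset.sum_add_distrib, hNB]
  unfold Bf BL
  rw [hI, hS, hmain]
  have e3 : ∑ p ∈ CC Q j, R p * K (vv Q j₀ p) = ∑ p ∈ CC Q j, (∫ u in a..b, f u * w p u) * K (vv Q j₀ p) -
      ∑ p ∈ CC Q j, (∑ n ∈ NB Q a0 j, cN y n * (vv Q j₀ n) ^ 2 * w p (vv Q j₀ n)) * K (vv Q j₀ p) := by
    rw [← sum_sub_distrib]
    apply sum_congr rfl
    intro p _
    rw [hR]
    ring
  rw [e3]
  show _ - (∫ u in a..b, f u * K u) = _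
  ring

/-- the response in terms of `XL` -/
lemma resp_eq {Q j₀ : ℕ} {a0 : ℕ → ℝ} {w : ℕ → ℝ → ℝ} {s x : ℕ → ℝ} {f : ℝ → ℝ} (h : Out2 Q j₀ w s x f)
    {j : ℕ} (hj : j₀ ≤ j) {p : ℕ} (hp : p ∈ CC Q j) (hpp : p.Prime) :
    x p = XL Q j₀ a0 w (cN (fun p => s p + x p)) f j p := by
  classical
  rw [h.resp j hj p hp hpp]
  unfold XL
  congr 2
  have hsub : KC Q j ⊆ NB Q a0 j := by
    intro n hn
    unfold KC at hn
    unfold NB
    rw [Finset.mem_filter] at hn ⊢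
    exact ⟨hn.1, fun h2 => hn.2 h2.1⟩
  rw [← Finset.sum_subset hsub]
  · apply Finset.sum_congr rfl
    intro n hn
    unfold KC at hn
    have hnp := (Finset.mem_filter.1 hn).2
    have e1 : cN (fun p => s p + x p) n = cf (fun p => s p + x p) n := if_neg hnp
    rw [e1]
  · intro n hn hn2
    have hp : n.Prime := by
      by_contra h3
      apply hn2
      unfold KC
      exact Finset.mem_filter.2 ⟨NB_sub _ _ _ hn, h3⟩
    have e1 : cN (fun p => s p + x p) n = 0 := if_pos hp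
    rw [e1]
    ring

end Pool.Agent.W138.LV
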