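import Pool.Agent.W138.LV.Stab1

/-!
# Project LV, stability of the machine: the estimate
-/

set_option autoImplicit false

open Finset MeasureTheory

namespace Pool.Agent.W138.LV

open Pool.Agent.W523.LV
open Pool.Agent.H96R3.BC (vv UU CC cf Wts Bf EE NN KK mem_CC NB XL BL TaskKer1 TaskKer2 KK_cont_left cf_prime
  exists_cell CC_unique XL_sub BL_sub EE_cont_left int_sub_mul UU_succ_sq_le one_le_UU UU_nonneg UU_mono)
open Pool.Agent.H394R3.ET (KC AS Mass HH cN cN_mass)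
open Pool.Agent.H336R4.BC (cell_le NB_sub hh hh_nonneg)

lemma one_le_log {n : ℕ} (hn : 3 ≤ n) : 1 ≤ Real.log n := by
  have h1 : (3:ℝ) ≤ n := by exact_mod_cast hn
  rw [Real.le_log_iff_exp_le (by linarith)]
  have := Real.exp_one_lt_d9
  linarith

section

variable {Q j₀ : ℕ} {C CQ s' a : ℝ} {a0 : ℕ → ℝ} {w : ℕ → ℝ → ℝ}
  {s x t z : ℕ → ℝ} {f g : ℝ → ℝ} {R : ℕ}

/-- `x p` vanishes unless `p` is a prime of a cell -/
lemma diff_all (hQ : 1 ≤ Q) (_hj0 : 3 ≤ j₀) (ha : 0 ≤ a)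
    (hx : Out2 Q j₀ w s x f) (hz : Out2 Q j₀ w t z g)
    (hst : ∀ n : ℕ, n ≤ R ^ (2 * Q) → s n = t n)
    (hd : ∀ j : ℕ, j₀ ≤ j → (j + 1) ^ (2 * Q) ≤ 2 * R ^ (2 * Q) → ∀ p ∈ CC Q j,
      |x p - z p| ≤ a * (1 / 2 / (Real.log p) ^ 2)) (n : ℕ) :
    |(if n ≤ R ^ (2 * Q) then s n + x n else 0) - (if n ≤ R ^ (2 * Q) then t n + z n else 0)| ≤
      a * (1 / 2 / (Real.log n) ^ 2) := by
  have h0 : 0 ≤ a * (1 / 2 / (Real.log n) ^ 2) := by positivity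
  by_cases hn : n ≤ R ^ (2 * Q)
  · rw [if_pos hn, if_pos hn, hst n hn, add_sub_add_left_eq_sub]
    by_cases hn2 : j₀ ^ (2 * Q) < n
    · obtain ⟨j, hj, hnj⟩ := exists_cell hQ hn2
      refine hd j hj ?_ n hnj
      rw [mem_CC] at hnj
      have h1 : j < R := by
        by_contra h
        push Not at h
        have := Nat.pow_le_pow_left h (2 * Q)
        omega
      have h2 : (j + 1) ^ (2 * Q) ≤ R ^ (2 * Q) := Nat.pow_le_pow_left h1 _
      omega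
    · have e1 : x n = 0 := by
        by_contra h
        exact hn2 (hx.xsupp n h).2
      have e2 : z n = 0 := by
        by_contra h
        exact hn2 (hz.xsupp n h).2
      rw [e1, e2, sub_zero, abs_zero]
      exact h0
  · rw [if_neg hn, if_neg hn, sub_zero, abs_zero]
    exact h0

lemma coef_bd (hs : Frc2 Q j₀ s) (hx : Out2 Q j₀ w s x f) (n : ℕ) :
    |s n + x n| ≤ 1 / (Real.log n) ^ 2 := by
  refine (abs_add_le _ _).trans ((add_le_add (hs.bd n) (hx.xbd n)).trans (le_of_eq ?_))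
  rw [← add_div]; norm_num

lemma coef_low (hs : Frc2 Q j₀ s) (hx : Out2 Q j₀ w s x f) {n : ℕ} (hn : n ≤ j₀ ^ (2 * Q)) :
    s n + x n = 0 := by
  have e1 : x n = 0 := by
    by_contra h
    have := (hx.xsupp n h).2
    omega
  have e2 : s n = 0 := by
    by_contra h
    have := (hs.supp n h).2
    omega
  rw [e1, e2, add_zero]

/-- masses of the differences in the low cells -/
lemma mass_low (hQ : 1 ≤ Q) (hj0 : 3 ≤ j₀) (ha : 0 ≤ a) (hM : Mass Q j₀ s')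
    (hs : Frc2 Q j₀ s) (hx : Out2 Q j₀ w s x f) (ht : Frc2 Q j₀ t) (hz : Out2 Q j₀ w t z g)
    (hst : ∀ n : ℕ, n ≤ R ^ (2 * Q) → s n = t n)
    (hd : ∀ j : ℕ, j₀ ≤ j → (j + 1) ^ (2 * Q) ≤ 2 * R ^ (2 * Q) → ∀ p ∈ CC Q j,
      |x p - z p| ≤ a * (1 / 2 / (Real.log p) ^ 2)) (a0 : ℕ → ℝ) {j : ℕ} (hj : j₀ ≤ j)
    (hlow : (j + 1) ^ (2 * Q) ≤ 2 * R ^ (2 * Q)) :
    ∑ n ∈ NB Q a0 j, |cN (fun q => s q + x q) n - cN (fun q => t q + z q) n| ≤
      a * (s' * (CC Q j).card / (Real.log j) ^ 3) := by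
  have h := (cN_mass hM (a0 := a0) (y := fun q => if q ≤ R ^ (2 * Q) then s q + x q else 0)
    (y' := fun q => if q ≤ R ^ (2 * Q) then t q + z q else 0) ha
    (fun n => by
      show |if n ≤ R ^ (2 * Q) then s n + x n else 0| ≤ _
      split_ifs
      · exact coef_bd hs hx n
      · rw [abs_zero]; positivity)
    (fun n => by
      show |if n ≤ R ^ (2 * Q) then t n + z n else 0| ≤ _
      split_ifs
      · exact coef_bd ht hz n
      · rw [abs_zero]; positivity)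
    (fun n hn => by
      show (if n ≤ R ^ (2 * Q) then s n + x n else 0) = 0
      split_ifs
      · exact coef_low hs hx hn
      · rfl)
    (fun n hn => by
      show (if n ≤ R ^ (2 * Q) then t n + z n else 0) = 0
      split_ifs
      · exact coef_low ht hz hn
      · rfl)
    (fun n => diff_all hQ hj0 ha hx hz hst hd n) hj).1
  refine le_trans (le_of_eq ?_) h
  apply Finset.sum_congr rfl
  intro n hn
  have hn2 : n ≤ 2 * R ^ (2 * Q) := (mem_CC.1 (NB_sub _ _ _ hn)).2.trans hlow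
  rw [cN_trunc (fun q => s q + x q) hn2, cN_trunc (fun q => t q + z q) hn2]

/-- masses of the differences in any cell -/
lemma mass_high (hM : Mass Q j₀ s')
    (hs : Frc2 Q j₀ s) (hx : Out2 Q j₀ w s x f) (ht : Frc2 Q j₀ t) (hz : Out2 Q j₀ w t z g)
    (a0 : ℕ → ℝ) {j : ℕ} (hj : j₀ ≤ j) :
    ∑ n ∈ NB Q a0 j, |cN (fun q => s q + x q) n - cN (fun q => t q + z q) n| ≤
      2 * (s' * (CC Q j).card / (Real.log j) ^ 3) := by
  have h1 := (cN_mass hM (a0 := a0) (D := 1) zero_le_one (fun n => coef_bd hs hx n) (fun n => coef_bd hs hx n)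
    (fun n hn => coef_low hs hx hn) (fun n hn => coef_low hs hx hn)
    (fun n => by rw [sub_self, abs_zero]; positivity) hj).2
  have h2 := (cN_mass hM (a0 := a0) (D := 1) zero_le_one (fun n => coef_bd ht hz n) (fun n => coef_bd ht hz n)
    (fun n hn => coef_low ht hz hn) (fun n hn => coef_low ht hz hn)
    (fun n => by rw [sub_self, abs_zero]; positivity) hj).2
  calc ∑ n ∈ NB Q a0 j, |cN (fun q => s q + x q) n - cN (fun q => t q + z q) n|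
      ≤ ∑ n ∈ NB Q a0 j, (|cN (fun q => s q + x q) n| + |cN (fun q => t q + z q) n|) :=
        Finset.sum_le_sum fun n _ => abs_sub _ _
    _ ≤ _ := by
        rw [Finset.sum_add_distrib]
        linarith

/-- the forcings agree in the low cells -/
lemma Sj2_eq (hst : ∀ n : ℕ, n ≤ R ^ (2 * Q) → s n = t n) {j : ℕ} (hj : j < R) (v : ℝ) :
    Sj2 Q j₀ s j v = Sj2 Q j₀ t j v := by
  have h1 : (j + 1) ^ (2 * Q) ≤ R ^ (2 * Q) := Nat.pow_le_pow_left hj _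
  have h2 : j ^ (2 * Q) ≤ R ^ (2 * Q) := Nat.pow_le_pow_left hj.le _
  have e1 : ∑ p ∈ CC Q j, s p * (vv Q j₀ p) ^ 2 * KK (4 * Q + 4) (vv Q j₀ p) v =
      ∑ p ∈ CC Q j, t p * (vv Q j₀ p) ^ 2 * KK (4 * Q + 4) (vv Q j₀ p) v := by
    apply Finset.sum_congr rfl
    intro p hp
    rw [hst p ((mem_CC.1 hp).2.trans h1)]
  have e2 : BB Q j₀ s j = BB Q j₀ t j := by
    unfold BB
    apply Finset.sum_congr rfl
    intro p hp
    rw [hst p ((Finset.mem_Icc.1 hp).2.trans h2)]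
  have e3 : BB Q j₀ s (j + 1) = BB Q j₀ t (j + 1) := by
    unfold BB
    apply Finset.sum_congr rfl
    intro p hp
    rw [hst p ((Finset.mem_Icc.1 hp).2.trans h1)]
  unfold Sj2
  rw [e1, e2, e3]

/-- the elementary bounds of `ej` -/
lemma E_bd (hQ : 6 ≤ Q) (hj0 : 3 ≤ j₀) (hCQ : 0 < CQ)
    (hS2 : ∀ j : ℕ, j₀ ≤ j → ej Q j₀ j * ((CC Q j).card * UU j₀ (j + 1) ^ 2) ≤
      CQ * (j₀ : ℝ) ^ (1 / 2 : ℝ) * (j : ℝ) ^ ((3 - 4 * (Q : ℝ)) / 2)) {j : ℕ} (hj : j₀ ≤ j) :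
    ej Q j₀ j * ((CC Q j).card * UU j₀ (j + 1) ^ 2) ≤ CQ * (1 / (j:ℝ) ^ 2) ∧
    (j₀ ≤ R → R ≤ j → ej Q j₀ j * ((CC Q j).card * UU j₀ (j + 1) ^ 2) ≤
      CQ * (j₀ : ℝ) ^ (1 / 2 : ℝ) * (R : ℝ) ^ ((7 - 4 * (Q : ℝ)) / 2) * (1 / (j:ℝ) ^ 2)) := by
  have hjp : (0:ℝ) < j := by exact_mod_cast (by omega : 0 < j)
  have hj0p : (0:ℝ) < j₀ := by exact_mod_cast (by omega : 0 < j₀)
  have hj1 : (1:ℝ) ≤ j := by exact_mod_cast (by omega : 1 ≤ j)
  have hQR : (6:ℝ) ≤ Q := by exact_mod_cast hQ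
  have e2 : (1:ℝ) / (j:ℝ) ^ 2 = (j:ℝ) ^ (-2 : ℝ) := by
    rw [Real.rpow_neg hjp.le, one_div]
    norm_num
  constructor
  · refine (hS2 j hj).trans ?_
    rw [mul_assoc]
    apply mul_le_mul_of_nonneg_left _ hCQ.le
    rw [e2]
    calc (j₀ : ℝ) ^ (1 / 2 : ℝ) * (j : ℝ) ^ ((3 - 4 * (Q : ℝ)) / 2)
        ≤ (j : ℝ) ^ (1 / 2 : ℝ) * (j : ℝ) ^ ((3 - 4 * (Q : ℝ)) / 2) := by
          apply mul_le_mul_of_nonneg_right _ (by positivity)
          exact Real.rpow_le_rpow hj0p.le (by exact_mod_cast hj) (by norm_num)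
      _ = (j:ℝ) ^ (1 / 2 + (3 - 4 * (Q : ℝ)) / 2) := by rw [Real.rpow_add hjp]
      _ ≤ (j:ℝ) ^ (-2 : ℝ) := by
          apply Real.rpow_le_rpow_of_exponent_le hj1
          linarith
  · intro hR hRj
    have hRp : (0:ℝ) < R := by exact_mod_cast (by omega : 0 < R)
    refine (hS2 j hj).trans ?_
    rw [mul_assoc (CQ * _)]
    apply mul_le_mul_of_nonneg_left _ (by positivity)
    rw [e2]
    calc (j : ℝ) ^ ((3 - 4 * (Q : ℝ)) / 2) = (j : ℝ) ^ ((7 - 4 * (Q : ℝ)) / 2) * (j:ℝ) ^ (-2 : ℝ) := by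
          rw [← Real.rpow_add hjp]; congr 1; ring
      _ ≤ (R : ℝ) ^ ((7 - 4 * (Q : ℝ)) / 2) * (j:ℝ) ^ (-2 : ℝ) := by
          apply mul_le_mul_of_nonneg_right _ (by positivity)
          apply Real.rpow_le_rpow_of_nonpos hRp (by exact_mod_cast hRj)
          linarith

/-- one cell -/
lemma cell_bd (hQ : 6 ≤ Q) (hj0 : 3 ≤ j₀) (hC : 0 < C) (hCQ : 0 < CQ) (hs' : 0 < s') (ha : 0 ≤ a)
    (hE : TaskEB)
    (hS1 : ∀ j : ℕ, j₀ ≤ j → (UU j₀ (j + 1) - UU j₀ j) ^ (4 * Q - 2) * UU j₀ (j + 1) ^ (4 * Q) /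
      UU j₀ j ^ (4 * Q) ≤ CQ / ((j₀ : ℝ) * (j : ℝ) ^ 2))
    (hS2 : ∀ j : ℕ, j₀ ≤ j → ej Q j₀ j * ((CC Q j).card * UU j₀ (j + 1) ^ 2) ≤
      CQ * (j₀ : ℝ) ^ (1 / 2 : ℝ) * (j : ℝ) ^ ((3 - 4 * (Q : ℝ)) / 2))
    (hw : Wts Q j₀ C a0 w) (hM : Mass Q j₀ s')
    (hs : Frc2 Q j₀ s) (hx : Out2 Q j₀ w s x f) (ht : Frc2 Q j₀ t) (hz : Out2 Q j₀ w t z g)
    (hR : j₀ ≤ R) (hst : ∀ n : ℕ, n ≤ R ^ (2 * Q) → s n = t n)
    (hf : ∀ v : ℝ, 0 ≤ v → |f v - g v| ≤ a * N4 Q v)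
    (hd : ∀ j : ℕ, j₀ ≤ j → (j + 1) ^ (2 * Q) ≤ 2 * R ^ (2 * Q) → ∀ p ∈ CC Q j,
      |x p - z p| ≤ a * (1 / 2 / (Real.log p) ^ 2))
    {j : ℕ} (hj : j₀ ≤ j) {v : ℝ} (hv : 0 ≤ v) :
    |(Sj2 Q j₀ s j v - Sj2 Q j₀ t j v) +
      BL Q j₀ a0 w (fun n => cN (fun q => s q + x q) n - cN (fun q => t q + z q) n) (fun u => f u - g u) j v| ≤
    (((1 + C) * s' * a * CQ + (1 + C) * a * CQ / j₀) * (1 / (j:ℝ) ^ 2) +
      (2 + 2 * (1 + C) * s') * CQ * (j₀ : ℝ) ^ (1 / 2 : ℝ) * (R : ℝ) ^ ((7 - 4 * (Q : ℝ)) / 2) *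
        (if R ≤ j then 1 / (j:ℝ) ^ 2 else 0)) * N4 Q v := by
  have hN0 : 0 ≤ N4 Q v := N4_nonneg Q hv
  have hlog : 1 ≤ Real.log j := one_le_log (hj0.trans hj)
  have hU1 : 1 ≤ UU j₀ j := one_le_UU (by omega) hj
  have hUm : UU j₀ j ≤ UU j₀ (j + 1) := UU_mono (by omega)
  have hh0 : 0 ≤ UU j₀ (j + 1) - UU j₀ j := sub_nonneg.2 hUm
  have hejn : 0 ≤ ej Q j₀ j := by
    unfold ej
    have := UU_nonneg j₀ j
    positivity
  have hjp : (0:ℝ) < j := by exact_mod_cast (by omega : 0 < j)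
  have hj0p : (0:ℝ) < j₀ := by exact_mod_cast (by omega : 0 < j₀)
  obtain ⟨hE1, hE2⟩ := E_bd (R := R) hQ hj0 hCQ hS2 hj
  set E : ℝ := ej Q j₀ j * ((CC Q j).card * UU j₀ (j + 1) ^ 2) with hEdef
  have hE0 : 0 ≤ E := by positivity
  -- the forcing part
  have hforce : |Sj2 Q j₀ s j v - Sj2 Q j₀ t j v| ≤ (if R ≤ j then 2 * E else 0) * N4 Q v := by
    split_ifs with h
    · have h1 := hE.2 Q j₀ s (by omega) hj0 hs j hj v hv
      have h2 := hE.2 Q j₀ t (by omega) hj0 ht j hj v hv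
      have h3 := abs_sub (Sj2 Q j₀ s j v) (Sj2 Q j₀ t j v)
      calc _ ≤ |Sj2 Q j₀ s j v| + |Sj2 Q j₀ t j v| := h3
        _ ≤ E * N4 Q v + E * N4 Q v := add_le_add h1 h2
        _ = _ := by ring
    · rw [Sj2_eq hst (by omega), sub_self, abs_zero]
      positivity
  -- the masses
  have hmass : ∑ n ∈ NB Q a0 j, |cN (fun q => s q + x q) n - cN (fun q => t q + z q) n| ≤
      (a + if R ≤ j then 2 else 0) * (s' * (CC Q j).card) := by
    have hl : s' * (CC Q j).card / (Real.log j) ^ 3 ≤ s' * (CC Q j).card :=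
      div_le_self (by positivity) (one_le_pow₀ hlog)
    by_cases hlow : (j + 1) ^ (2 * Q) ≤ 2 * R ^ (2 * Q)
    · refine (mass_low (by omega) hj0 ha hM hs hx ht hz hst hd a0 hj hlow).trans ?_
      calc a * (s' * (CC Q j).card / (Real.log j) ^ 3) ≤ a * (s' * (CC Q j).card) :=
            mul_le_mul_of_nonneg_left hl ha
        _ ≤ _ := by
            apply mul_le_mul_of_nonneg_right _ (by positivity)
            split_ifs <;> linarith
    · have hRj : R ≤ j := by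
        by_contra h
        push Not at h
        have := Nat.pow_le_pow_left h (2 * Q)
        have e : j.succ = j + 1 := rfl
        rw [e] at this
        omega
      refine (mass_high hM hs hx ht hz a0 hj).trans ?_
      rw [if_pos hRj]
      calc 2 * (s' * (CC Q j).card / (Real.log j) ^ 3) ≤ 2 * (s' * (CC Q j).card) :=
            mul_le_mul_of_nonneg_left hl (by norm_num)
        _ ≤ _ := by
            apply mul_le_mul_of_nonneg_right _ (by positivity)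
            linarith
  have hfc : ∀ u, UU j₀ j ≤ u → u ≤ UU j₀ (j + 1) → |f u - g u| ≤ a * UU j₀ (j + 1) ^ (4 * Q) := by
    intro u hu hu2
    have h1 : 1 ≤ u := hU1.trans hu
    refine (hf u (by linarith)).trans ?_
    rw [N4_of_ge h1]
    apply mul_le_mul_of_nonneg_left _ ha
    exact pow_le_pow_left₀ (by linarith) hu2 _
  have hcell := cell_le (Q := Q) (j₀ := j₀) (a0 := a0)
    (c := fun n => cN (fun q => s q + x q) n - cN (fun q => t q + z q) n) (f := fun u => f u - g u) (j := j)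
    (K := fun u => EE Q j₀ w j u v) (B := (1 + C) * ej Q j₀ j * N4 Q v)
    (m := (a + if R ≤ j then 2 else 0) * (s' * (CC Q j).card)) (F := a * UU j₀ (j + 1) ^ (4 * Q))
    (by omega) (by omega) (by positivity) (mul_nonneg ha (pow_nonneg (UU_nonneg _ _) _))
    (fun u hu hu2 => hE.1 Q j₀ C a0 w (by omega) hj0 hC.le hw j hj u hu hu2 v hv) hmass hfc
  have hBL : |BL Q j₀ a0 w (fun n => cN (fun q => s q + x q) n - cN (fun q => t q + z q) n) (fun u => f u - g u) j v| ≤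
      (1 + C) * ej Q j₀ j * N4 Q v * (UU j₀ (j + 1) ^ 2 * ((a + if R ≤ j then 2 else 0) * (s' * (CC Q j).card)) +
        hh j₀ j * (a * UU j₀ (j + 1) ^ (4 * Q))) := by
    refine le_trans ?_ hcell
    unfold BL
    exact abs_sub _ _
  -- the product `ej * h * U ^ (4 Q)`
  have hprod : ej Q j₀ j * (hh j₀ j * UU j₀ (j + 1) ^ (4 * Q)) ≤ CQ / ((j₀ : ℝ) * (j : ℝ) ^ 2) := by
    refine le_trans (le_of_eq ?_) (hS1 j hj)
    unfold ej hh
    have e : 4 * Q - 2 = (4 * Q - 3) + 1 := by omega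
    rw [e, pow_succ]
    ring
  have hBL2 : |BL Q j₀ a0 w (fun n => cN (fun q => s q + x q) n - cN (fun q => t q + z q) n) (fun u => f u - g u) j v| ≤
      ((1 + C) * s' * (a + if R ≤ j then 2 else 0) * E + (1 + C) * a * (CQ / ((j₀ : ℝ) * (j : ℝ) ^ 2))) * N4 Q v := by
    refine hBL.trans ?_
    have h1 : (1 + C) * a * (ej Q j₀ j * (hh j₀ j * UU j₀ (j + 1) ^ (4 * Q))) ≤
        (1 + C) * a * (CQ / ((j₀ : ℝ) * (j : ℝ) ^ 2)) := mul_le_mul_of_nonneg_left hprod (by positivity)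
    calc _ = ((1 + C) * s' * (a + if R ≤ j then 2 else 0) * E +
          (1 + C) * a * (ej Q j₀ j * (hh j₀ j * UU j₀ (j + 1) ^ (4 * Q)))) * N4 Q v := by
          rw [hEdef]; ring
      _ ≤ _ := by
          apply mul_le_mul_of_nonneg_right _ hN0
          linarith
  have hCQ0 : CQ / ((j₀ : ℝ) * (j : ℝ) ^ 2) = CQ / j₀ * (1 / (j:ℝ) ^ 2) := by
    field_simp
  refine (abs_add_le _ _).trans ((add_le_add hforce hBL2).trans ?_)
  rw [← add_mul]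
  apply mul_le_mul_of_nonneg_right _ hN0
  rw [hCQ0]
  by_cases hRj : R ≤ j
  · rw [if_pos hRj, if_pos hRj, if_pos hRj]
    have h2 := hE2 hR hRj
    set G : ℝ := CQ * (j₀ : ℝ) ^ (1 / 2 : ℝ) * (R : ℝ) ^ ((7 - 4 * (Q : ℝ)) / 2) * (1 / (j:ℝ) ^ 2) with hG
    have h3 : (1 + C) * s' * a * E ≤ (1 + C) * s' * a * (CQ * (1 / (j:ℝ) ^ 2)) :=
      mul_le_mul_of_nonneg_left hE1 (by positivity)
    have h4 : (2 + 2 * (1 + C) * s') * E ≤ (2 + 2 * (1 + C) * s') * G :=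
      mul_le_mul_of_nonneg_left h2 (by positivity)
    calc 2 * E + ((1 + C) * s' * (a + 2) * E + (1 + C) * a * (CQ / j₀ * (1 / (j:ℝ) ^ 2)))
        = (1 + C) * s' * a * E + (2 + 2 * (1 + C) * s') * E + (1 + C) * a * (CQ / j₀ * (1 / (j:ℝ) ^ 2)) := by ring
      _ ≤ (1 + C) * s' * a * (CQ * (1 / (j:ℝ) ^ 2)) + (2 + 2 * (1 + C) * s') * G +
          (1 + C) * a * (CQ / j₀ * (1 / (j:ℝ) ^ 2)) := by linarith
      _ = _ := by rw [hG]; ring
  · rw [if_neg hRj, if_neg hRj, if_neg hRj]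
    have h3 : (1 + C) * s' * a * E ≤ (1 + C) * s' * a * (CQ * (1 / (j:ℝ) ^ 2)) :=
      mul_le_mul_of_nonneg_left hE1 (by positivity)
    calc 0 + ((1 + C) * s' * (a + 0) * E + (1 + C) * a * (CQ / j₀ * (1 / (j:ℝ) ^ 2)))
        = (1 + C) * s' * a * E + (1 + C) * a * (CQ / j₀ * (1 / (j:ℝ) ^ 2)) := by ring
      _ ≤ (1 + C) * s' * a * (CQ * (1 / (j:ℝ) ^ 2)) + (1 + C) * a * (CQ / j₀ * (1 / (j:ℝ) ^ 2)) := by linarith
      _ = _ := by ring

/-- the difference of the densities -/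
lemma dens_eq (hQ : 1 ≤ Q) (hj0 : 3 ≤ j₀) (hw : Wts Q j₀ C a0 w) (h1 : TaskKer1)
    (hs : Frc2 Q j₀ s) (hx : Out2 Q j₀ w s x f) (ht : Frc2 Q j₀ t) (hz : Out2 Q j₀ w t z g) {v : ℝ} (hv : 0 ≤ v) :
    f v - g v = -(∫ u in (0:ℝ)..1, (f u - g u) * KK (4 * Q + 4) u v) +
      ∑' i : ℕ, ((Sj2 Q j₀ s (j₀ + i) v - Sj2 Q j₀ t (j₀ + i) v) +
      BL Q j₀ a0 w (fun n => cN (fun q => s q + x q) n - cN (fun q => t q + z q) n) (fun u => f u - g u) (j₀ + i) v) := by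
  have hfc := hx.sol.cont
  have hgc := hz.sol.cont
  have hB : ∀ {s x : ℕ → ℝ} {f : ℝ → ℝ}, Frc2 Q j₀ s → Out2 Q j₀ w s x f → ∀ i : ℕ,
      Bf2 Q j₀ s (fun q => s q + x q) f (j₀ + i) v =
        Sj2 Q j₀ s (j₀ + i) v + BL Q j₀ a0 w (cN (fun q => s q + x q)) f (j₀ + i) v := by
    intro s x f hs hx i
    unfold Bf2 Sj2
    rw [Bf_eq2 h1 hw (fun n hn => (hs.supp n hn).1) hx.sol.cont hQ (by omega) (by omega)
      (fun p hp hpp => resp_eq hx (by omega) hp hpp) v]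
    ring
  have hSum : ∀ {s x : ℕ → ℝ} {f : ℝ → ℝ}, Out2 Q j₀ w s x f →
      Summable fun i : ℕ => Bf2 Q j₀ s (fun q => s q + x q) f (j₀ + i) v := by
    intro s x f hx
    obtain ⟨M, hMs, hMb⟩ := hx.sol.sumb
    exact Summable.of_norm_bounded (hMs.mul_right (v ^ (8 * Q + 7)))
      (fun i => by rw [Real.norm_eq_abs]; exact hMb i v hv)
  have e1 := hx.sol.eq v hv
  have e2 := hz.sol.eq v hv
  have e3 : ∑' i : ℕ, ((Sj2 Q j₀ s (j₀ + i) v - Sj2 Q j₀ t (j₀ + i) v) +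
      BL Q j₀ a0 w (fun n => cN (fun q => s q + x q) n - cN (fun q => t q + z q) n) (fun u => f u - g u) (j₀ + i) v) =
      (∑' i : ℕ, Bf2 Q j₀ s (fun q => s q + x q) f (j₀ + i) v) -
        ∑' i : ℕ, Bf2 Q j₀ t (fun q => t q + z q) g (j₀ + i) v := by
    rw [← (hSum hx).tsum_sub (hSum hz)]
    apply tsum_congr
    intro i
    rw [hB hs hx i, hB ht hz i, BL_sub h1 hw hfc hgc]
    ring
  have e4 : ∫ u in (0:ℝ)..1, (f u - g u) * KK (4 * Q + 4) u v =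
      (∫ u in (0:ℝ)..1, f u * KK (4 * Q + 4) u v) - ∫ u in (0:ℝ)..1, g u * KK (4 * Q + 4) u v :=
    int_sub_mul hfc hgc (KK_cont_left h1 (by omega) v) _ _
  rw [e3, e4, e1, e2]
  ring

end

end Pool.Agent.W138.LV
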