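import Pool.Agent.W138.LV.Stab2

/-!
# Project LV, stability of the machine
-/

set_option autoImplicit false

open Finset MeasureTheory

namespace Pool.Agent.W138.LV

open Pool.Agent.W523.LV
open Pool.Agent.H96R3.BC (vv UU CC cf Wts Bf EE NN KK mem_CC NB XL BL TaskKer1 TaskKer2 KK_cont_left cf_prime
  exists_cell CC_unique XL_sub BL_sub EE_cont_left int_sub_mul UU_succ_sq_le one_le_UU UU_nonneg UU_mono)
open Pool.Agent.H394R3.ET (KC AS Mass HH cN cN_mass)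
open Pool.Agent.H336R4.BC (cell_le NB_sub hh hh_nonneg)

section

variable {Q j₀ : ℕ} {C CQ s' a : ℝ} {a0 : ℕ → ℝ} {w : ℕ → ℝ → ℝ}
  {s x t z : ℕ → ℝ} {f g : ℝ → ℝ} {R : ℕ}

/-- the responses -/
lemma resp_bd (hQ : 6 ≤ Q) (hj0 : 3 ≤ j₀) (hC : 0 < C) (hCQ : 0 < CQ) (hs' : 0 < s') (ha : 0 ≤ a)
    (hb2 : 256 * (Q:ℝ) ^ 2 * C * s' ≤ 1) (hb4 : 128 * (Q:ℝ) ^ 2 * C * CQ ≤ j₀)
    (hS3 : ∀ j : ℕ, j₀ ≤ j → (UU j₀ (j + 1) - UU j₀ j) * UU j₀ (j + 1) ^ (4 * Q) * (Real.log (j + 1)) ^ 3 ≤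
      CQ * (j₀ : ℝ) ^ ((1 - 4 * (Q : ℝ)) / 2) * ((CC Q j).card * UU j₀ j ^ 2))
    (hw : Wts Q j₀ C a0 w) (hM : Mass Q j₀ s')
    (hs : Frc2 Q j₀ s) (hx : Out2 Q j₀ w s x f) (ht : Frc2 Q j₀ t) (hz : Out2 Q j₀ w t z g)
    (hst : ∀ n : ℕ, n ≤ R ^ (2 * Q) → s n = t n)
    (hf : ∀ v : ℝ, 0 ≤ v → |f v - g v| ≤ a * N4 Q v)
    (hd : ∀ j : ℕ, j₀ ≤ j → (j + 1) ^ (2 * Q) ≤ 2 * R ^ (2 * Q) → ∀ p ∈ CC Q j,
      |x p - z p| ≤ a * (1 / 2 / (Real.log p) ^ 2))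
    {j : ℕ} (hj : j₀ ≤ j) (hlow : (j + 1) ^ (2 * Q) ≤ 2 * R ^ (2 * Q)) {p : ℕ} (hp : p ∈ CC Q j) :
    |x p - z p| ≤ a / 2 * (1 / 2 / (Real.log p) ^ 2) := by
  by_cases hpp : p.Prime
  swap
  · have e1 : x p = 0 := by
      by_contra h
      exact hpp (hx.xsupp p h).1
    have e2 : z p = 0 := by
      by_contra h
      exact hpp (hz.xsupp p h).1
    rw [e1, e2, sub_zero, abs_zero]
    positivity
  have hj3 : 3 ≤ j := hj0.trans hj
  have hjR : (3:ℝ) ≤ j := by exact_mod_cast hj3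
  have hj0p : (0:ℝ) < j₀ := by exact_mod_cast (by omega : 0 < j₀)
  have hj01 : (1:ℝ) ≤ j₀ := by exact_mod_cast (by omega : 1 ≤ j₀)
  have hlog : 1 ≤ Real.log j := one_le_log hj3
  have hcard : 0 < (CC Q j).card := Finset.card_pos.2 ⟨p, hp⟩
  have hcardR : (0:ℝ) < (CC Q j).card := by exact_mod_cast hcard
  have hU1' : 1 ≤ UU j₀ j := one_le_UU (by omega) hj
  have hUp : 0 < UU j₀ j := by linarith
  have hU1 := UU_nonneg j₀ (j + 1)
  have hh0 := hh_nonneg j₀ j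
  have hv := Pool.Agent.H96R3.BC.vv_mem (j₀ := j₀) (Q := Q) (by omega) hp
  have hvp : 0 < vv Q j₀ p := hUp.trans_le hv.1
  have hQR : (6:ℝ) ≤ Q := by exact_mod_cast hQ
  -- the difference of the responses
  have hdiff : x p - z p =
      XL Q j₀ a0 w (fun n => cN (fun q => s q + x q) n - cN (fun q => t q + z q) n) (fun u => f u - g u) j p := by
    rw [XL_sub hw hx.sol.cont hz.sol.cont, ← resp_eq hx hj hp hpp, ← resp_eq hz hj hp hpp]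
  have hfc : ∀ u, UU j₀ j ≤ u → u ≤ UU j₀ (j + 1) → |f u - g u| ≤ a * UU j₀ (j + 1) ^ (4 * Q) := by
    intro u hu hu2
    have h1 : 1 ≤ u := hU1'.trans hu
    refine (hf u (by linarith)).trans ?_
    rw [N4_of_ge h1]
    apply mul_le_mul_of_nonneg_left _ ha
    exact pow_le_pow_left₀ (by linarith) hu2 _
  have hcell := cell_le (Q := Q) (j₀ := j₀) (a0 := a0)
    (c := fun n => cN (fun q => s q + x q) n - cN (fun q => t q + z q) n) (f := fun u => f u - g u) (j := j)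
    (K := w p) (B := C * Real.log j / (CC Q j).card) (m := a * (s' * (CC Q j).card / (Real.log j) ^ 3))
    (F := a * UU j₀ (j + 1) ^ (4 * Q)) (by omega) (by omega) (by positivity) (by positivity)
    (fun u hu hu2 => hw.bound j hj p hp u hu hu2) (mass_low (by omega) hj0 ha hM hs hx ht hz hst hd a0 hj hlow) hfc
  have hnum : |(∫ u in (UU j₀ j)..(UU j₀ (j + 1)), (f u - g u) * w p u) -
      ∑ n ∈ NB Q a0 j, (cN (fun q => s q + x q) n - cN (fun q => t q + z q) n) * (vv Q j₀ n) ^ 2 * w p (vv Q j₀ n)| ≤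
      C * Real.log j / (CC Q j).card * (UU j₀ (j + 1) ^ 2 * (a * (s' * (CC Q j).card / (Real.log j) ^ 3)) +
        hh j₀ j * (a * UU j₀ (j + 1) ^ (4 * Q))) := by
    refine (abs_sub _ _).trans ?_
    rw [add_comm]
    exact hcell
  have hpart1 : hh j₀ j * UU j₀ (j + 1) ^ (4 * Q) ≤
      (CC Q j).card * UU j₀ j ^ 2 * (CQ / (j₀ * (Real.log j) ^ 3)) := by
    rw [mul_div_assoc', le_div_iff₀ (by positivity)]
    have h3 := hS3 j hj
    have hl : (Real.log j) ^ 3 ≤ (Real.log (j + 1)) ^ 3 := by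
      apply pow_le_pow_left₀ (by linarith)
      exact Real.log_le_log (by linarith) (by linarith)
    have hr : (j₀ : ℝ) ^ ((1 - 4 * (Q : ℝ)) / 2) * j₀ ≤ 1 := by
      have h5 : (j₀ : ℝ) ^ ((1 - 4 * (Q : ℝ)) / 2) * j₀ = (j₀ : ℝ) ^ ((1 - 4 * (Q : ℝ)) / 2 + 1) := by
        rw [Real.rpow_add hj0p, Real.rpow_one]
      rw [h5]
      exact Real.rpow_le_one_of_one_le_of_nonpos hj01 (by linarith)
    have hnn : 0 ≤ hh j₀ j * UU j₀ (j + 1) ^ (4 * Q) := by positivity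
    calc hh j₀ j * UU j₀ (j + 1) ^ (4 * Q) * (j₀ * (Real.log j) ^ 3)
        = (hh j₀ j * UU j₀ (j + 1) ^ (4 * Q) * (Real.log j) ^ 3) * j₀ := by ring
      _ ≤ (hh j₀ j * UU j₀ (j + 1) ^ (4 * Q) * (Real.log (j + 1)) ^ 3) * j₀ := by
          apply mul_le_mul_of_nonneg_right _ hj0p.le
          exact mul_le_mul_of_nonneg_left hl hnn
      _ ≤ (CQ * (j₀ : ℝ) ^ ((1 - 4 * (Q : ℝ)) / 2) * ((CC Q j).card * UU j₀ j ^ 2)) * j₀ := by
          apply mul_le_mul_of_nonneg_right _ hj0p.le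
          exact h3
      _ = ((j₀ : ℝ) ^ ((1 - 4 * (Q : ℝ)) / 2) * j₀) * (CQ * ((CC Q j).card * UU j₀ j ^ 2)) := by ring
      _ ≤ 1 * (CQ * ((CC Q j).card * UU j₀ j ^ 2)) := mul_le_mul_of_nonneg_right hr (by positivity)
      _ = _ := by ring
  have hpart2 : UU j₀ (j + 1) ^ 2 ≤ 2 * UU j₀ j ^ 2 := UU_succ_sq_le (by omega)
  have hnum2 : |(∫ u in (UU j₀ j)..(UU j₀ (j + 1)), (f u - g u) * w p u) -
      ∑ n ∈ NB Q a0 j, (cN (fun q => s q + x q) n - cN (fun q => t q + z q) n) * (vv Q j₀ n) ^ 2 * w p (vv Q j₀ n)| ≤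
      a * C / (Real.log j) ^ 2 * (CQ / j₀ + 2 * s') * UU j₀ j ^ 2 := by
    refine hnum.trans ?_
    calc C * Real.log j / (CC Q j).card * (UU j₀ (j + 1) ^ 2 * (a * (s' * (CC Q j).card / (Real.log j) ^ 3)) +
        hh j₀ j * (a * UU j₀ (j + 1) ^ (4 * Q)))
        = C * Real.log j / (CC Q j).card * (UU j₀ (j + 1) ^ 2 * (a * (s' * (CC Q j).card / (Real.log j) ^ 3)) +
        a * (hh j₀ j * UU j₀ (j + 1) ^ (4 * Q))) := by ring
      _ ≤ C * Real.log j / (CC Q j).card * ((2 * UU j₀ j ^ 2) * (a * (s' * (CC Q j).card / (Real.log j) ^ 3)) +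
        a * ((CC Q j).card * UU j₀ j ^ 2 * (CQ / (j₀ * (Real.log j) ^ 3)))) := by
          apply mul_le_mul_of_nonneg_left _ (by positivity)
          apply add_le_add
          · exact mul_le_mul_of_nonneg_right hpart2 (by positivity)
          · exact mul_le_mul_of_nonneg_left hpart1 ha
      _ = _ := by
          have : Real.log j ≠ 0 := by positivity
          field_simp
          ring
  have hlogp : 0 < Real.log p := Real.log_pos (by exact_mod_cast hpp.one_lt)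
  have hlogp2 : Real.log p ≤ 4 * Q * Real.log j := by
    have h1 : (p:ℝ) ≤ ((j:ℝ) ^ 2) ^ (2 * Q) := by
      have h2 : p ≤ (j + 1) ^ (2 * Q) := (mem_CC.1 hp).2
      have h3 : j + 1 ≤ j ^ 2 := by nlinarith
      exact_mod_cast h2.trans (Nat.pow_le_pow_left h3 _)
    calc Real.log p ≤ Real.log (((j:ℝ) ^ 2) ^ (2 * Q)) := Real.log_le_log (by exact_mod_cast hpp.pos) h1
      _ = 4 * Q * Real.log j := by
          rw [← pow_mul, Real.log_pow]; push_cast; ring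
  have hinv : 1 / (Real.log j) ^ 2 ≤ 16 * (Q:ℝ) ^ 2 * (1 / (Real.log p) ^ 2) := by
    rw [mul_one_div, div_le_div_iff₀ (by positivity) (by positivity), one_mul]
    calc Real.log p ^ 2 ≤ (4 * Q * Real.log j) ^ 2 := pow_le_pow_left₀ hlogp.le hlogp2 2
      _ = _ := by ring
  rw [hdiff]
  unfold XL
  rw [abs_div, abs_of_pos (by positivity : 0 < vv Q j₀ p ^ 2), div_le_iff₀ (by positivity)]
  refine hnum2.trans ?_
  have hsmall : 16 * (Q:ℝ) ^ 2 * C * (CQ / j₀ + 2 * s') ≤ 1 / 4 := by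
    have h5 : 16 * (Q:ℝ) ^ 2 * C * (CQ / j₀) ≤ 1 / 8 := by
      have e : 16 * (Q:ℝ) ^ 2 * C * (CQ / j₀) = (128 * (Q:ℝ) ^ 2 * C * CQ) / j₀ / 8 := by ring
      rw [e]
      have h6 : (128 * (Q:ℝ) ^ 2 * C * CQ) / j₀ ≤ 1 := by rw [div_le_one hj0p]; exact hb4
      linarith
    have h6 : 16 * (Q:ℝ) ^ 2 * C * (2 * s') ≤ 1 / 8 := by linarith
    rw [mul_add]
    linarith
  set Z := CQ / (j₀:ℝ) + 2 * s' with hZ
  have hZ0 : 0 ≤ Z := by positivity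
  calc a * C / (Real.log j) ^ 2 * Z * UU j₀ j ^ 2
      = a * C * Z * (1 / (Real.log j) ^ 2) * UU j₀ j ^ 2 := by ring
    _ ≤ a * C * Z * (16 * (Q:ℝ) ^ 2 * (1 / (Real.log p) ^ 2)) * vv Q j₀ p ^ 2 := by
        apply mul_le_mul _ (pow_le_pow_left₀ hUp.le hv.1 2) (by positivity) (by positivity)
        exact mul_le_mul_of_nonneg_left hinv (by positivity)
    _ = a * (16 * (Q:ℝ) ^ 2 * C * Z) * (1 / (Real.log p) ^ 2) * vv Q j₀ p ^ 2 := by ring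
    _ ≤ a * (1 / 4) * (1 / (Real.log p) ^ 2) * vv Q j₀ p ^ 2 := by
        apply mul_le_mul_of_nonneg_right _ (by positivity)
        apply mul_le_mul_of_nonneg_right _ (by positivity)
        exact mul_le_mul_of_nonneg_left hsmall ha
    _ = _ := by ring

/-- the densities -/
lemma dens_bd (hQ : 6 ≤ Q) (hj0 : 3 ≤ j₀) (hC : 0 < C) (hCQ : 0 < CQ) (hs' : 0 < s') (ha : 0 ≤ a)
    (hb1 : 16 * (1 + C) * CQ * s' ≤ 1) (hb3 : 16 * (1 + C) * CQ ≤ j₀)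
    (h1 : TaskKer1) (h2 : TaskKer2) (hE : TaskEB)
    (hS1 : ∀ j : ℕ, j₀ ≤ j → (UU j₀ (j + 1) - UU j₀ j) ^ (4 * Q - 2) * UU j₀ (j + 1) ^ (4 * Q) /
      UU j₀ j ^ (4 * Q) ≤ CQ / ((j₀ : ℝ) * (j : ℝ) ^ 2))
    (hS2 : ∀ j : ℕ, j₀ ≤ j → ej Q j₀ j * ((CC Q j).card * UU j₀ (j + 1) ^ 2) ≤
      CQ * (j₀ : ℝ) ^ (1 / 2 : ℝ) * (j : ℝ) ^ ((3 - 4 * (Q : ℝ)) / 2))
    (hw : Wts Q j₀ C a0 w) (hM : Mass Q j₀ s')
    (hs : Frc2 Q j₀ s) (hx : Out2 Q j₀ w s x f) (ht : Frc2 Q j₀ t) (hz : Out2 Q j₀ w t z g)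
    (hR : j₀ ≤ R) (hst : ∀ n : ℕ, n ≤ R ^ (2 * Q) → s n = t n)
    (hf : ∀ v : ℝ, 0 ≤ v → |f v - g v| ≤ a * N4 Q v)
    (hd : ∀ j : ℕ, j₀ ≤ j → (j + 1) ^ (2 * Q) ≤ 2 * R ^ (2 * Q) → ∀ p ∈ CC Q j,
      |x p - z p| ≤ a * (1 / 2 / (Real.log p) ^ 2)) {v : ℝ} (hv : 0 ≤ v) :
    |f v - g v| ≤ (a / 2 + (2 + 2 * (1 + C) * s') * CQ * (j₀ : ℝ) ^ (1 / 2 : ℝ) *
      (R : ℝ) ^ ((7 - 4 * (Q : ℝ)) / 2) * (2 / R)) * N4 Q v := by
  have hN0 : 0 ≤ N4 Q v := N4_nonneg Q hv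
  have hj0p : (3:ℝ) ≤ j₀ := by exact_mod_cast hj0
  have hRp : (0:ℝ) < R := by exact_mod_cast (by omega : 0 < R)
  set α : ℝ := (1 + C) * s' * a * CQ + (1 + C) * a * CQ / j₀ with hα
  set β : ℝ := (2 + 2 * (1 + C) * s') * CQ * (j₀ : ℝ) ^ (1 / 2 : ℝ) * (R : ℝ) ^ ((7 - 4 * (Q : ℝ)) / 2) with hβ
  have hα0 : 0 ≤ α := by positivity
  have hβ0 : 0 ≤ β := by positivity
  have hlow := low_int h2 hQ (F := fun u => f u - g u) ha hf hv
  obtain ⟨hs1, hs1'⟩ := tail (j₀ := j₀) (R := j₀) (by omega) le_rfl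
  obtain ⟨hs2, hs2'⟩ := tail (j₀ := j₀) (R := R) (by omega) hR
  have hsum := ((hs1.hasSum.mul_left α).add (hs2.hasSum.mul_left β)).mul_right (N4 Q v)
  have htot := tsum_of_norm_bounded hsum (f := fun i : ℕ => ((Sj2 Q j₀ s (j₀ + i) v - Sj2 Q j₀ t (j₀ + i) v) +
      BL Q j₀ a0 w (fun n => cN (fun q => s q + x q) n - cN (fun q => t q + z q) n) (fun u => f u - g u) (j₀ + i) v))
    (fun i => by
      rw [Real.norm_eq_abs, if_pos (by omega : j₀ ≤ j₀ + i)]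
      exact cell_bd hQ hj0 hC hCQ hs' ha hE hS1 hS2 hw hM hs hx ht hz hR hst hf hd (by omega) hv)
  rw [Real.norm_eq_abs] at htot
  rw [dens_eq (by omega) hj0 hw h1 hs hx ht hz hv]
  refine (abs_add_le _ _).trans ?_
  rw [abs_neg]
  have hα2 : α ≤ a / 8 := by
    have h5 : (1 + C) * CQ / j₀ ≤ 1 / 16 := by
      rw [div_le_iff₀ (by linarith)]
      linarith
    have h6 : (1 + C) * CQ * s' ≤ 1 / 16 := by linarith
    have e : α = a * ((1 + C) * CQ * s' + (1 + C) * CQ / j₀) := by rw [hα]; ring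
    rw [e]
    calc a * ((1 + C) * CQ * s' + (1 + C) * CQ / j₀) ≤ a * (1 / 16 + 1 / 16) :=
          mul_le_mul_of_nonneg_left (add_le_add h6 h5) ha
      _ = a / 8 := by ring
  have h7 : (2:ℝ) / j₀ ≤ 1 := by rw [div_le_one (by linarith)]; linarith
  have h8 : α * ∑' i : ℕ, (if j₀ ≤ j₀ + i then 1 / (((j₀ + i : ℕ) : ℝ)) ^ 2 else 0) ≤ a / 4 := by
    calc _ ≤ α * 1 := mul_le_mul_of_nonneg_left (hs1'.trans h7) hα0
      _ ≤ _ := by linarith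
  have h9 : β * ∑' i : ℕ, (if R ≤ j₀ + i then 1 / (((j₀ + i : ℕ) : ℝ)) ^ 2 else 0) ≤ β * (2 / R) :=
    mul_le_mul_of_nonneg_left hs2' hβ0
  calc _ ≤ a / 4 * N4 Q v + (α * ∑' i : ℕ, (if j₀ ≤ j₀ + i then 1 / (((j₀ + i : ℕ) : ℝ)) ^ 2 else 0) +
        β * ∑' i : ℕ, (if R ≤ j₀ + i then 1 / (((j₀ + i : ℕ) : ℝ)) ^ 2 else 0)) * N4 Q v := add_le_add hlow htot
    _ ≤ a / 4 * N4 Q v + (a / 4 + β * (2 / R)) * N4 Q v := by
        have := mul_le_mul_of_nonneg_right (add_le_add h8 h9) hN0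
        linarith
    _ = _ := by ring

end

theorem taskStab (hEB : TaskEB) (hSum : TaskSum4) : TaskStab := by
  have hK1 : TaskKer1 := Pool.Agent.H553R3.BC.taskKer1
  have hK2 : TaskKer2 := Pool.Agent.H553R3.BC.taskKer2
  refine ⟨6, fun Q hQ C hC => ?_⟩
  obtain ⟨CQ, hCQ, hS⟩ := hSum Q (by omega)
  have hQR : (6:ℝ) ≤ Q := by exact_mod_cast hQ
  set s' : ℝ := min (1 / (16 * (1 + C) * CQ)) (1 / (256 * (Q:ℝ) ^ 2 * C)) with hs'def
  have hs' : 0 < s' := lt_min (by positivity) (by positivity)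
  have hb1 : 16 * (1 + C) * CQ * s' ≤ 1 := by
    calc 16 * (1 + C) * CQ * s' ≤ 16 * (1 + C) * CQ * (1 / (16 * (1 + C) * CQ)) :=
          mul_le_mul_of_nonneg_left (min_le_left _ _) (by positivity)
      _ = 1 := by field_simp
  have hb2 : 256 * (Q:ℝ) ^ 2 * C * s' ≤ 1 := by
    calc 256 * (Q:ℝ) ^ 2 * C * s' ≤ 256 * (Q:ℝ) ^ 2 * C * (1 / (256 * (Q:ℝ) ^ 2 * C)) :=
          mul_le_mul_of_nonneg_left (min_le_right _ _) (by positivity)
      _ = 1 := by field_simp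
  refine ⟨s', hs', max 3 (max ⌈16 * (1 + C) * CQ⌉₊ ⌈128 * (Q:ℝ) ^ 2 * C * CQ⌉₊), fun j₀ hj => ?_⟩
  have hj0 : 3 ≤ j₀ := (le_max_left _ _).trans hj
  have hb3 : 16 * (1 + C) * CQ ≤ j₀ :=
    (Nat.le_ceil _).trans (by exact_mod_cast ((le_max_left _ _).trans (le_max_right _ _)).trans hj)
  have hb4 : 128 * (Q:ℝ) ^ 2 * C * CQ ≤ j₀ :=
    (Nat.le_ceil _).trans (by exact_mod_cast ((le_max_right _ _).trans (le_max_right _ _)).trans hj)
  intro a0 w hw hM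
  have hj0p : (0:ℝ) < j₀ := by exact_mod_cast (by omega : 0 < j₀)
  refine ⟨2 * ((2 + 2 * (1 + C) * s') * CQ * (j₀ : ℝ) ^ (1 / 2 : ℝ)), by positivity, ?_⟩
  intro s x f t z g hs hx ht hz R hR hst
  have hRp : (0:ℝ) < R := by exact_mod_cast (by omega : 0 < R)
  set S : ℝ := (2 + 2 * (1 + C) * s') * CQ * (j₀ : ℝ) ^ (1 / 2 : ℝ) *
      (R : ℝ) ^ ((7 - 4 * (Q : ℝ)) / 2) * (2 / R) with hSdef
  have hS0 : 0 ≤ S := by positivity
  have hSeq : S = 2 * ((2 + 2 * (1 + C) * s') * CQ * (j₀ : ℝ) ^ (1 / 2 : ℝ)) * (R : ℝ) ^ ((5 - 4 * (Q : ℝ)) / 2) := by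
    have e : (R : ℝ) ^ ((5 - 4 * (Q : ℝ)) / 2) = (R : ℝ) ^ ((7 - 4 * (Q : ℝ)) / 2) / R := by
      rw [← Real.rpow_sub_one hRp.ne']
      congr 1; ring
    rw [e, hSdef]
    ring
  set a₀ : ℝ := 2 * (j₀:ℝ) ^ Q with ha₀
  have hj01 : (1:ℝ) ≤ (j₀:ℝ) ^ Q := one_le_pow₀ (by exact_mod_cast (by omega : 1 ≤ j₀))
  have ha₀2 : 2 ≤ a₀ := by linarith
  -- iteration
  have key : ∀ n : ℕ, (∀ v : ℝ, 0 ≤ v → |f v - g v| ≤ (a₀ * (1 / 2) ^ n + 2 * S) * N4 Q v) ∧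
      (∀ j : ℕ, j₀ ≤ j → (j + 1) ^ (2 * Q) ≤ 2 * R ^ (2 * Q) → ∀ p ∈ CC Q j,
        |x p - z p| ≤ (a₀ * (1 / 2) ^ n + 2 * S) * (1 / 2 / (Real.log p) ^ 2)) := by
    intro n
    induction n with
    | zero =>
      rw [pow_zero, mul_one]
      constructor
      · intro v hv
        have h1 := hx.fbd v hv
        have h2 := hz.fbd v hv
        have h3 := NN_le_N4 (Q := Q) (v := v) (by omega)
        have h4 : 0 ≤ N4 Q v := N4_nonneg Q hv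
        calc |f v - g v| ≤ |f v| + |g v| := abs_sub _ _
          _ ≤ (j₀ : ℝ) ^ Q * N4 Q v + (j₀ : ℝ) ^ Q * N4 Q v := by
              have h5 := mul_le_mul_of_nonneg_left h3 (by positivity : (0:ℝ) ≤ (j₀ : ℝ) ^ Q)
              linarith
          _ = a₀ * N4 Q v := by rw [ha₀]; ring
          _ ≤ _ := mul_le_mul_of_nonneg_right (by linarith) h4
      · intro j _ _ p _
        have h1 := hx.xbd p
        have h2 := hz.xbd p
        have h4 : 0 ≤ 1 / 2 / (Real.log p) ^ 2 := by positivity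
        calc |x p - z p| ≤ |x p| + |z p| := abs_sub _ _
          _ ≤ 2 * (1 / 2 / (Real.log p) ^ 2) := by linarith
          _ ≤ _ := mul_le_mul_of_nonneg_right (by linarith) h4
    | succ n ih =>
      have ha : 0 ≤ a₀ * (1 / 2) ^ n + 2 * S := by positivity
      have hS1 := fun j hj => (hS j₀ hj0 j hj).1
      have hS2 := fun j hj => (hS j₀ hj0 j hj).2.1
      have hS3 := fun j hj => (hS j₀ hj0 j hj).2.2
      constructor
      · intro v hv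
        have h := dens_bd hQ hj0 hC hCQ hs' ha hb1 hb3 hK1 hK2 hEB hS1 hS2 hw hM hs hx ht hz hR hst ih.1 ih.2 hv
        refine h.trans (mul_le_mul_of_nonneg_right (le_of_eq ?_) (N4_nonneg Q hv))
        rw [pow_succ, hSdef]
        ring
      · intro j hj hlow p hp
        have h := resp_bd hQ hj0 hC hCQ hs' ha hb2 hb4 hS3 hw hM hs hx ht hz hst ih.1 ih.2 hj hlow hp
        refine h.trans (mul_le_mul_of_nonneg_right ?_ (by positivity))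
        rw [pow_succ]
        linarith
  intro j hj hlow p hp
  have hlim : Filter.Tendsto (fun n : ℕ => (a₀ * (1 / 2) ^ n + 2 * S) * (1 / 2 / (Real.log p) ^ 2)) Filter.atTop
      (nhds ((a₀ * 0 + 2 * S) * (1 / 2 / (Real.log p) ^ 2))) :=
    (((tendsto_pow_atTop_nhds_zero_of_lt_one (r := (1/2:ℝ)) (by norm_num) (by norm_num)).const_mul a₀).add_const
      (2 * S)).mul_const _
  have h1 := ge_of_tendsto' hlim (fun n => (key n).2 j hj hlow p hp)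
  have hlogp : 1 ≤ Real.log p := Pool.Agent.H394R3.ET.one_le_log_CC (by omega) hj0 hj hp
  rw [← hSeq]
  refine h1.trans ?_
  have h2 : 1 / 2 / (Real.log p) ^ 2 ≤ 1 / 2 := div_le_self (by norm_num) (one_le_pow₀ hlogp)
  calc (a₀ * 0 + 2 * S) * (1 / 2 / (Real.log p) ^ 2) ≤ (a₀ * 0 + 2 * S) * (1 / 2) :=
        mul_le_mul_of_nonneg_left h2 (by linarith)
    _ = S := by ring

end Pool.Agent.W138.LV
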